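import Pool.Agent.Helper20.DL.LocalAB
import Pool.Agent.Helper69.AA.Defs

/-! # The three cases for a fibre of a family -/

namespace Pool.Agent.Helper20.AA
open Pool.Agent.Helper20.DL Pool.Agent.Helper69.AA Pool.Agent.Helper36.DL

variable {n : ℕ} {v : AbsoluteValue ℂ ℝ} {p : ℕ} {Z : Set (Fin n → ℂ)}

lemma localHolds_of_good (h : LocalGood v p Z) : LocalHolds v p Z := fun a b hab hle => by
  obtain ⟨H, h1, h2⟩ := h.rel a b (fun i => (hle i).1) (fun i => (hle i).2) hab
  exact ⟨H, h2, h1⟩

/-- **the three cases**, uniformly in the affine maps -/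
theorem unif_of_localGood (hv : IsNonarchimedean v) (hp : p.Prime) (hvp : v (p : ℂ) < 1)
    (h : LocalGood v p Z) : UnifA v p Z ∧ UnifB v p Z ∧ UnifC v p Z :=
  localABC hv hp hvp (localHolds_of_good h) fun z hz i j hi hj => by
    by_contra hne
    rcases h.corner z hz i j hne with h1 | h1
    · exact hi h1
    · exact hj h1

end Pool.Agent.Helper20.AA
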